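import Pool.Agent.H.MP_864522_al.A

set_option autoImplicit false

namespace Pool.Agent.Results.MP_864522_al.CovNo

open Pool.Agent.H.MP_864522_al Cardinal

theorem result : ((𝔠 : Cardinal.{0}) = ℵ₁ ∨ CovEqC) →
    ∃ G H : Subgroup (Equiv.Perm ℕ), G ⊔ H = ⊤ ∧ ∀ U : Finset (Equiv.Perm ℕ),
      G ⊔ Subgroup.closure (U : Set (Equiv.Perm ℕ)) ≠ ⊤ ∧
      H ⊔ Subgroup.closure (U : Set (Equiv.Perm ℕ)) ≠ ⊤ :=
  fun h => main (h.elim cov_of_CH id)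

end Pool.Agent.Results.MP_864522_al.CovNo
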